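import Pool.Agent.W792.WA.Br4

/-!
The Bernoulli Anderson model on `ℓ²(ℤ^d)` at coupling `1` with kinetic energy `-Δ + g(-Δ)`, the
symbol of `g(-Δ)` small in `L^p`, `p < 2`: the spectrum in a given interval is almost surely
purely absolutely continuous.
-/

namespace Pool.Agent.Results.MP_d0f69c_mp.ACSpectrumUnitCoupling

open MeasureTheory

noncomputable section

/-- The fair law on `{1, -1}`. -/
def coin : Measure ℝ :=
  ENNReal.ofReal (1 / 2) • Measure.dirac 1 + ENNReal.ofReal (1 / 2) • Measure.dirac (-1)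

/-- The hopping amplitudes of `g(-Δ)` on `ℤ^d`: the Fourier coefficients of the symbol
`g(∑ i (2 - 2 cos (2 π k_i)))`. -/
def hopping (g : ℝ → ℝ) (d : ℕ) (x : Fin d → ℤ) : ℂ :=
  UnitAddTorus.mFourierCoeff
    (fun k : UnitAddTorus (Fin d) => ((g (∑ i, (2 - 2 * (fourier 1 (k i)).re)) : ℝ) : ℂ)) x

/-- `(Δ_ω + g(-Δ)) u (j)`, where `(Δ_ω u)(j) = -∑_{|n|=1} (u(j+n) - u(j)) + ω_j u(j)`. -/
def H (g : ℝ → ℝ) {d : ℕ} (ω : (Fin d → ℤ) → ℝ) (u : (Fin d → ℤ) → ℂ) (j : Fin d → ℤ) : ℂ :=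
  -(∑ i : Fin d, ((u (j + Pi.single i 1) - u j) + (u (j - Pi.single i 1) - u j)))
    + (∑' n, hopping g d (j - n) * u n) + (ω j : ℂ) * u j

/-- `u` is square summable and `(H - z) u = δ_x`, i.e. `u = (H - z)⁻¹ δ_x`. -/
def IsGreen (g : ℝ → ℝ) {d : ℕ} (ω : (Fin d → ℤ) → ℝ) (z : ℂ) (x : Fin d → ℤ)
    (u : (Fin d → ℤ) → ℂ) : Prop :=
  Summable (fun y => ‖u y‖ ^ 2) ∧ ∀ y, H g ω u y - z * u y = if y = x then 1 else 0

/-- Purely absolutely continuous spectrum filling the interval `(a₁, a₂)`: for every site `x` the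
spectral measure `μ` of `δ_x`, i.e. the finite measure with
`⟨δ_x, (H - z)⁻¹ δ_x⟩ = ∫ dμ(E) / (E - z)`, has on `(a₁, a₂)` a density `h`, positive almost
everywhere there. -/
def ACOn (g : ℝ → ℝ) {d : ℕ} (ω : (Fin d → ℤ) → ℝ) (a₁ a₂ : ℝ) : Prop :=
  ∀ x : Fin d → ℤ, ∃ (μ : Measure ℝ) (h : ℝ → ℝ), IsFiniteMeasure μ ∧
    (∀ z : ℂ, 0 < z.im → (∃ u, IsGreen g ω z x u) ∧
      ∀ u, IsGreen g ω z x u → u x = ∫ E : ℝ, 1 / ((E : ℂ) - z) ∂μ) ∧
    Measurable h ∧ (∀ᵐ E ∂(volume.restrict (Set.Ioo a₁ a₂)), 0 < h E) ∧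
    μ.restrict (Set.Ioo a₁ a₂)
      = (volume.restrict (Set.Ioo a₁ a₂)).withDensity fun E => ENNReal.ofReal (h E)

theorem ac_of {b : ℝ → ℝ} {d : ℕ} (B : C(UnitAddTorus (Fin d), ℝ))
    (hB : ∀ k, B k = b (W792.LL.lap d k)) {lam : ℝ} {v : (Fin d → ℤ) → ℝ} {a₁ a₂ : ℝ}
    (h : W792.WA.ACIK (W792.LL.lap d + B) lam v a₁ a₂) : ACOn b (fun j => lam * v j) a₁ a₂ := by
  intro x
  obtain ⟨μ, g, h1, h2, h3, h4, h5⟩ := h x
  have e0 : (fun k : UnitAddTorus (Fin d) => ((B k : ℝ) : ℂ))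
      = fun k => ((b (∑ i, (2 - 2 * (fourier 1 (k i)).re)) : ℝ) : ℂ) := by
    funext k
    rw [hB]
    rfl
  refine ⟨μ, g, h1, fun z hz => ?_, h3, h4, h5⟩
  have e : ∀ u, W792.LL.Sol (W792.LL.hopK (W792.LL.lap d + B)) lam v z x u
      ↔ IsGreen b (fun j => lam * v j) z x u := by
    intro u
    rw [W792.WA.Br.sol_iff B lam v z x u, e0]
    unfold IsGreen H
    have e1 : ∀ y : Fin d → ℤ,
        -(∑ i : Fin d, ((u (y + Pi.single i 1) - u y) + (u (y - Pi.single i 1) - u y)))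
          = ∑ i : Fin d, (2 * u y - u (y + Pi.single i 1) - u (y - Pi.single i 1)) := by
      intro y
      rw [← Finset.sum_neg_distrib]
      exact Finset.sum_congr rfl fun i _ => by ring
    simp only [e1]
    rfl
  obtain ⟨⟨w, hw⟩, h6⟩ := h2 z hz
  exact ⟨⟨w, (e w).1 hw⟩, fun u hu => h6 u ((e u).2 hu)⟩

theorem coin_prob : IsProbabilityMeasure coin := by
  refine ⟨?_⟩
  unfold coin
  rw [Measure.add_apply, Measure.smul_apply, Measure.smul_apply, measure_univ, measure_univ,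
    smul_eq_mul, mul_one, ← ENNReal.ofReal_add (by norm_num) (by norm_num)]
  norm_num

theorem coin_signs : ∀ᵐ s ∂coin, s = 1 ∨ s = -1 := by
  have hms : MeasurableSet {s : ℝ | s = 1 ∨ s = -1} :=
    (measurableSet_singleton (1 : ℝ)).union (measurableSet_singleton (-1 : ℝ))
  unfold coin
  rw [ae_add_measure_iff]
  constructor
  · refine Measure.ae_smul_measure ?_ _
    rw [ae_dirac_iff hms]
    exact Or.inl rfl
  · refine Measure.ae_smul_measure ?_ _
    rw [ae_dirac_iff hms]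
    exact Or.inr rfl

theorem vr_coin_pos : 0 < W792.WA.vr coin := by
  have hp := coin_prob
  have hhalf : ENNReal.ofReal (1 / 2) < 1 := by
    rw [← ENNReal.ofReal_one]
    exact (ENNReal.ofReal_lt_ofReal_iff one_pos).2 (by norm_num)
  have hat : ∀ a : ℝ, coin {a} < 1 := by
    intro a
    unfold coin
    rw [Measure.add_apply, Measure.smul_apply, Measure.smul_apply,
      Measure.dirac_apply' _ (measurableSet_singleton a),
      Measure.dirac_apply' _ (measurableSet_singleton a), smul_eq_mul, smul_eq_mul]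
    by_cases h1 : (1 : ℝ) ∈ ({a} : Set ℝ)
    · have h2 : (-1 : ℝ) ∉ ({a} : Set ℝ) := by
        intro h2
        rw [Set.mem_singleton_iff] at h1 h2
        linarith
      rw [Set.indicator_of_mem h1, Set.indicator_of_notMem h2]
      simpa using hhalf
    · rw [Set.indicator_of_notMem h1, mul_zero, zero_add]
      by_cases h2 : (-1 : ℝ) ∈ ({a} : Set ℝ)
      · rw [Set.indicator_of_mem h2]
        simpa using hhalf
      · rw [Set.indicator_of_notMem h2]
        simp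
  have hb : ∀ᵐ x ∂coin, |x| ≤ 1 := by
    filter_upwards [coin_signs] with x hx
    rcases hx with h | h <;> rw [h] <;> simp
  exact W792.WA.Br.vr_pos coin 1 one_pos hb hat

/-- For all intervals `(a₁, a₂)`, all `1 < p < 2` and all `ε > 0` there is a bounded continuous
function `g`, the symbol of `g(-Δ)` of `L^p` norm to the power `p` at most `ε`, the hopping
amplitudes of `g(-Δ)` at most `ε`, such that for almost every choice of fair independent signs
`ω_j = ±1` the spectrum of `Δ_ω + g(-Δ)` in `(a₁, a₂)` is purely absolutely continuous, and it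
fills this interval. -/
theorem result (d : ℕ) (hd : 0 < d) (a₁ a₂ p ε : ℝ) (ha : a₁ < a₂) (hp₁ : 1 < p) (hp₂ : p < 2)
    (hε : 0 < ε) :
    ∃ g : ℝ → ℝ, Continuous g ∧ (∃ C : ℝ, ∀ t, |g t| ≤ C) ∧
    (∫ k : UnitAddTorus (Fin d), |g (∑ i, (2 - 2 * (fourier 1 (k i)).re))| ^ p ≤ ε) ∧
    (∀ x, ‖hopping g d x‖ ≤ ε) ∧
      ∀ᵐ ω ∂(Measure.infinitePi fun _ : Fin d → ℤ => coin),
        (∀ j, ω j = 1 ∨ ω j = -1) ∧ ACOn g ω a₁ a₂ := by
  have hp := coin_prob
  obtain ⟨g, hg1, hg2, hg3, hg4, hg5⟩ :=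
    W792.WA.Br.np_main d hd a₁ a₂ p _ ε ha hp₁ hp₂ vr_coin_pos hε
  refine ⟨g, hg1, hg2, hg3, hg4, ?_⟩
  set B : C(UnitAddTorus (Fin d), ℝ) :=
    ⟨fun k => g (W792.LL.lap d k), hg1.comp (W792.LL.lap d).continuous⟩ with hB
  have h3 : ∀ᵐ ω ∂(Measure.infinitePi fun _ : Fin d → ℤ => coin), ACOn g ω a₁ a₂ := by
    change ∀ᵐ v ∂(W792.WA.Pn coin (Fin d → ℤ)), _
    filter_upwards [hg5 coin le_rfl B (fun k => rfl)] with v hv
    have h4 := ac_of B (fun k => rfl) hv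
    simpa only [one_mul] using h4
  have h5 : ∀ᵐ ω ∂(Measure.infinitePi fun _ : Fin d → ℤ => coin),
      ∀ j, ω j = 1 ∨ ω j = -1 := by
    rw [ae_all_iff]
    intro j
    have h7 := (measurePreserving_eval_infinitePi (fun _ : Fin d → ℤ => coin) j)
    exact h7.quasiMeasurePreserving.ae coin_signs
  filter_upwards [h3, h5] with ω a1 a2
  exact ⟨a2, a1⟩

end

end Pool.Agent.Results.MP_d0f69c_mp.ACSpectrumUnitCoupling
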