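import Pool.Agent.W792.WA.All4

/-!
Bernoulli Anderson models `t (-Δ + b(-Δ)) + ω` on `ℓ²(ℤ^d)`, `ω_j = ±1` fair and independent, `b` a
continuous function bounded by an arbitrary `ε > 0`, with hopping amplitudes at most
`ε / (1 + |x|) ^ (d / 3)`: for all large `t` the spectrum in `(0, 4 d t)` is almost surely purely
absolutely continuous.
-/

namespace Pool.Agent.Results.MP_d0f69c_mp.BernoulliACSpectrum

open MeasureTheory

noncomputable section

/-- The fair law on `{1, -1}`. -/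
def coin : Measure ℝ :=
  ENNReal.ofReal (1 / 2) • Measure.dirac 1 + ENNReal.ofReal (1 / 2) • Measure.dirac (-1)

/-- The hopping amplitudes of `b(-Δ)` on `ℤ^d`: the Fourier coefficients of the symbol
`b(∑ i (2 - 2 cos (2 π k_i)))`. -/
def hopping (b : ℝ → ℝ) (d : ℕ) (x : Fin d → ℤ) : ℂ :=
  UnitAddTorus.mFourierCoeff
    (fun k : UnitAddTorus (Fin d) => ((b (∑ i, (2 - 2 * (fourier 1 (k i)).re)) : ℝ) : ℂ)) x

/-- `(t (-Δ + b(-Δ)) + ω) u (j)`. -/
def H (b : ℝ → ℝ) {d : ℕ} (t : ℝ) (ω : (Fin d → ℤ) → ℝ) (u : (Fin d → ℤ) → ℂ)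
    (j : Fin d → ℤ) : ℂ :=
  t * (-(∑ i : Fin d, ((u (j + Pi.single i 1) - u j) + (u (j - Pi.single i 1) - u j)))
    + ∑' n, hopping b d (j - n) * u n) + (ω j : ℂ) * u j

/-- `u` is square summable and `(H - z) u = δ_x`, i.e. `u = (H - z)⁻¹ δ_x`. -/
def IsGreen (b : ℝ → ℝ) {d : ℕ} (t : ℝ) (ω : (Fin d → ℤ) → ℝ) (z : ℂ) (x : Fin d → ℤ)
    (u : (Fin d → ℤ) → ℂ) : Prop :=
  Summable (fun y => ‖u y‖ ^ 2) ∧ ∀ y, H b t ω u y - z * u y = if y = x then 1 else 0

/-- Purely absolutely continuous spectrum filling the interval `(a₁, a₂)`: for every site `x` the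
spectral measure `μ` of `δ_x`, i.e. the finite measure with
`⟨δ_x, (H - z)⁻¹ δ_x⟩ = ∫ dμ(E) / (E - z)`, has on `(a₁, a₂)` a density `h`, positive almost
everywhere there. -/
def ACOn (b : ℝ → ℝ) {d : ℕ} (t : ℝ) (ω : (Fin d → ℤ) → ℝ) (a₁ a₂ : ℝ) : Prop :=
  ∀ x : Fin d → ℤ, ∃ (μ : Measure ℝ) (h : ℝ → ℝ), IsFiniteMeasure μ ∧
    (∀ z : ℂ, 0 < z.im → (∃ u, IsGreen b t ω z x u) ∧
      ∀ u, IsGreen b t ω z x u → u x = ∫ E : ℝ, 1 / ((E : ℂ) - z) ∂μ) ∧
    Measurable h ∧ (∀ᵐ E ∂(volume.restrict (Set.Ioo a₁ a₂)), 0 < h E) ∧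
    μ.restrict (Set.Ioo a₁ a₂)
      = (volume.restrict (Set.Ioo a₁ a₂)).withDensity fun E => ENNReal.ofReal (h E)

theorem ac_of {b : ℝ → ℝ} {d : ℕ} (B : C(UnitAddTorus (Fin d), ℝ))
    (hB : ∀ k, B k = b (W792.LL.lap d k)) {t : ℝ} {v : (Fin d → ℤ) → ℝ} {a₁ a₂ : ℝ}
    (h : W792.WA.ACIK (t • (W792.LL.lap d + B)) 1 v a₁ a₂) : ACOn b t v a₁ a₂ := by
  intro x
  obtain ⟨μ, g, h1, h2, h3, h4, h5⟩ := h x
  refine ⟨μ, g, h1, fun z hz => ?_, h3, h4, h5⟩
  have e : ∀ u, W792.LL.Sol (W792.LL.hopK (t • (W792.LL.lap d + B))) 1 v z x u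
      ↔ IsGreen b t v z x u := by
    intro u
    unfold W792.LL.Sol IsGreen
    refine and_congr_right fun hu => forall_congr' fun y => ?_
    have key : ∑' y', W792.LL.hopK (t • (W792.LL.lap d + B)) (y - y') * u y'
        = t * (-(∑ i : Fin d, ((u (y + Pi.single i 1) - u y) + (u (y - Pi.single i 1) - u y)))
          + ∑' n, hopping b d (y - n) * u n) := by
      have e1 : ∀ y', W792.LL.hopK (t • (W792.LL.lap d + B)) (y - y') * u y'
          = t * (W792.GK.hop (W792.GKLap.lapSym d) (y - y') * u y'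
            + W792.GK.hop B (y - y') * u y') := by
        intro y'
        rw [W792.WA.Br.hopK_smul]
        have e2 : W792.LL.hopK (W792.LL.lap d + B) (y - y')
            = W792.GK.hop (W792.GKLap.lapSym d) (y - y') + W792.GK.hop B (y - y') :=
          W792.GKLap.hop_add (W792.GKLap.lapSym d) B (y - y')
        rw [e2]
        ring
      rw [tsum_congr e1, tsum_mul_left]
      rw [Summable.tsum_add (W792.GKLap.hop_summable (W792.GKLap.lapSym d) u hu y)
        (W792.GKLap.hop_summable B u hu y), W792.GKLap.lap_conv]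
      have e3 : W792.GKLap.negLap u y
          = -(∑ i : Fin d, ((u (y + Pi.single i 1) - u y) + (u (y - Pi.single i 1) - u y))) := by
        unfold W792.GKLap.negLap
        rw [← Finset.sum_neg_distrib]
        exact Finset.sum_congr rfl fun i _ => by ring
      have e4 : ∀ n, W792.GK.hop B n = hopping b d n := by
        intro n
        unfold W792.GK.hop hopping
        congr 1
        funext k
        rw [hB]
        rfl
      rw [e3]
      simp only [e4]
    rw [key]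
    unfold H
    rw [one_mul]
  obtain ⟨⟨w, hw⟩, h6⟩ := h2 z hz
  exact ⟨⟨w, (e w).1 hw⟩, fun u hu => h6 u ((e u).2 hu)⟩

theorem coin_prob : IsProbabilityMeasure coin := by
  refine ⟨?_⟩
  unfold coin
  rw [Measure.add_apply, Measure.smul_apply, Measure.smul_apply, measure_univ, measure_univ,
    smul_eq_mul, mul_one, ← ENNReal.ofReal_add (by norm_num) (by norm_num)]
  norm_num

/-- For every `ε > 0` there are a continuous function `b` with `|b| ≤ ε` and hopping amplitudes at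
most `ε / (1 + |x|) ^ (d / 3)`, `|x| = max |x_i|`, and `t₀ > 0` such that for
`t ≥ t₀` and fair independent signs `ω_j` the spectrum of `t (-Δ + b(-Δ)) + ω` in `(0, 4 d t)` is
almost surely purely absolutely continuous, and it fills this interval. -/
theorem result (d : ℕ) (hd : 0 < d) (ε : ℝ) (hε : 0 < ε) :
    ∃ b : ℝ → ℝ, Continuous b ∧ (∀ s, |b s| ≤ ε) ∧
    (∀ x : Fin d → ℤ, ‖hopping b d x‖ ≤ ε / (1 + ‖x‖) ^ ((d : ℝ) / 3)) ∧
    ∃ t₀ : ℝ, 0 < t₀ ∧ ∀ t : ℝ, t₀ ≤ t →
      ∀ᵐ ω ∂(Measure.infinitePi fun _ : Fin d → ℤ => coin),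
        (∀ j, ω j = 1 ∨ ω j = -1) ∧ ACOn b t ω 0 (4 * d * t) := by
  obtain ⟨b, hb1, hb2, hbd, hb3⟩ := W792.WA.Br.lap_mainD W792.WA.Al.kfdc d hd ε hε
  have hp := coin_prob
  have hmom : Integrable (fun t : ℝ => t ^ 60) coin := by
    unfold coin
    refine Integrable.add_measure ?_ ?_
    · exact (integrable_dirac (by simp)).smul_measure ENNReal.ofReal_ne_top
    · exact (integrable_dirac (by simp)).smul_measure ENNReal.ofReal_ne_top
  have hhalf : ENNReal.ofReal (1 / 2) < 1 := by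
    rw [← ENNReal.ofReal_one]
    exact (ENNReal.ofReal_lt_ofReal_iff one_pos).2 (by norm_num)
  have hat : ∀ a : ℝ, coin {a} < 1 := by
    intro a
    unfold coin
    rw [Measure.add_apply, Measure.smul_apply, Measure.smul_apply,
      Measure.dirac_apply' _ (measurableSet_singleton a),
      Measure.dirac_apply' _ (measurableSet_singleton a), smul_eq_mul, smul_eq_mul]
    by_cases h1 : (1 : ℝ) ∈ ({a} : Set ℝ)
    · have h2 : (-1 : ℝ) ∉ ({a} : Set ℝ) := by
        intro h2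
        rw [Set.mem_singleton_iff] at h1 h2
        linarith
      rw [Set.indicator_of_mem h1, Set.indicator_of_notMem h2]
      simpa using hhalf
    · rw [Set.indicator_of_notMem h1, mul_zero, zero_add]
      by_cases h2 : (-1 : ℝ) ∈ ({a} : Set ℝ)
      · rw [Set.indicator_of_mem h2]
        simpa using hhalf
      · rw [Set.indicator_of_notMem h2]
        simp
  obtain ⟨c₀, h0, h1⟩ := hb3 coin hmom hat
  refine ⟨b, hb1, hb2, hbd, 1 / c₀, by positivity, fun t ht => ?_⟩
  have ht0 : 0 < t := lt_of_lt_of_le (by positivity) ht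
  have ht1 : 1 / t ≤ c₀ := by
    rw [div_le_iff₀ ht0]
    rw [div_le_iff₀ h0] at ht
    linarith
  set B : C(UnitAddTorus (Fin d), ℝ) :=
    ⟨fun k => b (W792.LL.lap d k), hb1.comp (W792.LL.lap d).continuous⟩ with hB
  have h2 := h1 (1 / t) (by positivity) ht1 B (fun k => rfl)
  have h3 : ∀ᵐ ω ∂(Measure.infinitePi fun _ : Fin d → ℤ => coin), ACOn b t ω 0 (4 * d * t) := by
    change ∀ᵐ v ∂(W792.WA.Pn coin (Fin d → ℤ)), _
    filter_upwards [h2] with v hv
    have h4 := W792.WA.Br.scale_up (W792.LL.lap d + B) ht0 hv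
    rw [mul_zero, mul_comm t] at h4
    exact ac_of B (fun k => rfl) h4
  have h5 : ∀ᵐ ω ∂(Measure.infinitePi fun _ : Fin d → ℤ => coin),
      ∀ j, ω j = 1 ∨ ω j = -1 := by
    rw [ae_all_iff]
    intro j
    have h6 : ∀ᵐ s ∂coin, s = 1 ∨ s = -1 := by
      have hms : MeasurableSet {s : ℝ | s = 1 ∨ s = -1} :=
        (measurableSet_singleton (1 : ℝ)).union (measurableSet_singleton (-1 : ℝ))
      unfold coin
      rw [ae_add_measure_iff]
      constructor
      · refine Measure.ae_smul_measure ?_ _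
        rw [ae_dirac_iff hms]
        exact Or.inl rfl
      · refine Measure.ae_smul_measure ?_ _
        rw [ae_dirac_iff hms]
        exact Or.inr rfl
    have h7 := (measurePreserving_eval_infinitePi (fun _ : Fin d → ℤ => coin) j)
    exact h7.quasiMeasurePreserving.ae h6
  filter_upwards [h3, h5] with ω a1 a2
  exact ⟨a2, a1⟩

end

end Pool.Agent.Results.MP_d0f69c_mp.BernoulliACSpectrum
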